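import Mathlib
import Pool.Agent.W786.Ls.Cv

set_option autoImplicit false
set_option linter.unusedVariables false

namespace Pool.Agent.W930.LS

open Pool.Agent.W786.Ls MeasureTheory Set Complex
open scoped ENNReal NNReal

variable {n : ℕ}

lemma norm_ek (k : Fin n → ℤ) (v : Fin n → ℝ) : ‖ek k v‖ = 1 := by
  unfold ek
  have : (Real.pi * I * ((∑ j, (k j : ℝ) * v j : ℝ) : ℂ)) =
      ((Real.pi * ∑ j, (k j : ℝ) * v j : ℝ) : ℂ) * I := by
    push_cast; ring
  rw [this, Complex.norm_exp_ofReal_mul_I]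

lemma ek_add (k l : Fin n → ℤ) (v : Fin n → ℝ) : ek (k + l) v = ek k v * ek l v := by
  unfold ek
  rw [← Complex.exp_add]
  congr 1
  simp only [Pi.add_apply, Int.cast_add, add_mul, Finset.sum_add_distrib, Complex.ofReal_add]
  ring

lemma em_shift (k : Fin n → ℤ) (y : Fin n → ℝ) (t : ℝ) (v : Fin n → ℝ) :
    ek k v * em y t v = em (y + fun j => (k j : ℝ) / 2) t v := by
  unfold ek Pool.Agent.W786.Ls.em qe
  rw [← Complex.exp_sum, ← Complex.exp_sum, ← Complex.exp_add]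
  congr 1
  push_cast
  rw [Finset.mul_sum, ← Finset.sum_add_distrib]
  refine Finset.sum_congr rfl fun j _ => ?_
  simp only [Pi.add_apply]
  push_cast
  ring

lemma trig_shift (S : Finset (Fin n → ℤ)) (d : (Fin n → ℤ) → ℂ) (k0 : Fin n → ℤ)
    (v : Fin n → ℝ) :
    trig (S.image fun k => k - k0) (fun k => d (k + k0)) v = ek (-k0) v * trig S d v := by
  unfold trig
  rw [Finset.sum_image (fun a _ b _ h => sub_left_injective h), Finset.mul_sum]
  refine Finset.sum_congr rfl fun k _ => ?_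
  simp only
  rw [sub_add_cancel, sub_eq_add_neg, ek_add]
  ring

lemma l2_shift (S : Finset (Fin n → ℤ)) (d : (Fin n → ℤ) → ℂ) (k0 : Fin n → ℤ) :
    l2 (S.image fun k => k - k0) (fun k => d (k + k0)) = l2 S d := by
  unfold l2
  rw [Finset.sum_image (fun a _ b _ h => sub_left_injective h)]
  simp only [sub_add_cancel]

lemma l2_ek (S : Finset (Fin n → ℤ)) (d : (Fin n → ℤ) → ℂ) (α : Fin n → ℝ) :
    l2 S (fun k => d k * ek k α) = l2 S d := by
  unfold l2
  congr 1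
  refine Finset.sum_congr rfl fun k _ => ?_
  rw [enorm_mul, ← ofReal_norm (ek k α), norm_ek, ENNReal.ofReal_one, mul_one]

lemma TT_shift (S : Finset (Fin n → ℤ)) (c : (Fin n → ℤ) → ℂ) (k0 : Fin n → ℤ) (t : ℝ)
    (α y : Fin n → ℝ) :
    TT t (S.image fun k => k - k0) (fun k => c (k + k0) * ek k α) y =
      ek (-k0) α * TT t S (fun k => c k * ek k α) (y + fun j => ((-k0) j : ℝ) / 2) := by
  have h1 : (fun k => c (k + k0) * ek k α) =
      fun k => (fun l => ek (-k0) α * (c l * ek l α)) (k + k0) := by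
    funext k
    have : ek k α = ek (-k0) α * ek (k + k0) α := by
      rw [← ek_add]; congr 1; abel
    simp only
    rw [this]; ring
  unfold TT
  rw [← integral_const_mul]
  refine integral_congr_ae (Filter.Eventually.of_forall fun v => ?_)
  simp only
  rw [h1, trig_shift S (fun l => ek (-k0) α * (c l * ek l α)) k0 v, ← em_shift]
  have h2 : trig S (fun l => ek (-k0) α * (c l * ek l α)) v =
      ek (-k0) α * trig S (fun l => c l * ek l α) v := by
    unfold trig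
    rw [Finset.mul_sum]
    exact Finset.sum_congr rfl fun k _ => by ring
  rw [h2]
  ring

lemma lint_shift (S : Finset (Fin n → ℤ)) (c : (Fin n → ℤ) → ℂ) (k0 : Fin n → ℤ) (t q : ℝ)
    (α : Fin n → ℝ) :
    ∫⁻ y : Fin n → ℝ, ‖TT t (S.image fun k => k - k0) (fun k => c (k + k0) * ek k α) y‖ₑ ^ q =
      ∫⁻ y : Fin n → ℝ, ‖TT t S (fun k => c k * ek k α) y‖ₑ ^ q := by
  rw [← lintegral_add_right_eq_self (fun y => ‖TT t S (fun k => c k * ek k α) y‖ₑ ^ q)
    (fun j => ((-k0) j : ℝ) / 2)]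
  refine lintegral_congr fun y => ?_
  rw [TT_shift, enorm_mul, ← ofReal_norm (ek (-k0) α), norm_ek, ENNReal.ofReal_one,
    one_mul]

lemma meas_TT (S : Finset (Fin n → ℤ)) (c : (Fin n → ℤ) → ℂ) :
    Measurable (fun p : (ℝ × (Fin n → ℝ)) × (Fin n → ℝ) =>
      TT p.1.1 S (fun k => c k * ek k p.1.2) p.2) := by
  unfold TT
  apply StronglyMeasurable.measurable
  refine StronglyMeasurable.integral_prod_right'
    (f := fun z : ((ℝ × (Fin n → ℝ)) × (Fin n → ℝ)) × (Fin n → ℝ) =>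
      trig S (fun k => c k * ek k z.1.1.2) z.2 * em z.1.2 z.1.1.1 z.2) ?_
  apply Continuous.stronglyMeasurable
  unfold trig Pool.Agent.W786.Ls.em qe ek
  fun_prop

/-- the integral in the space variables -/
noncomputable def JJ (q : ℝ) (S : Finset (Fin n → ℤ)) (c : (Fin n → ℤ) → ℂ) (t : ℝ)
    (α : Fin n → ℝ) : ℝ≥0∞ := ∫⁻ y : Fin n → ℝ, ‖TT t S (fun k => c k * ek k α) y‖ₑ ^ q

lemma meas_JJ (q : ℝ) (S : Finset (Fin n → ℤ)) (c : (Fin n → ℤ) → ℂ) :
    Measurable (fun p : ℝ × (Fin n → ℝ) => JJ q S c p.1 p.2) := by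
  unfold JJ
  have h := ((meas_TT S c).enorm).pow_const q
  exact h.lintegral_prod_right'

lemma volume_CB : volume (CB n) = 2 ^ n := by
  unfold CB
  rw [volume_pi_pi]
  simp only [Real.volume_Ico, Finset.prod_const, Finset.card_univ, Fintype.card_fin]
  norm_num

/-- the final algebra -/
lemma alg {q κ c0 E θ R N δ : ℝ} {C B : ℝ≥0} {L I : ℝ≥0∞} (hq : 2 ≤ q) (hc0 : 0 < c0)
    (hR : 1 ≤ R) (hκ : 0 ≤ κ) (hN : 1 ≤ N) (hE : 1 - θ + E = -κ) (hNR : N ^ (δ * q) = R ^ κ)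
    (h : ENNReal.ofReal (R * ((2 * R) ^ (-θ) * (c0 * (2 * R) ^ E))) * I ≤
      2 ^ n * (B * L) ^ q + ENNReal.ofReal (R * (R ^ (-θ) * R ^ E)) * (C * L) ^ q) :
    I ≤ ((((ENNReal.ofReal ((c0 * 2 ^ (E - θ))⁻¹) * (2 ^ n + (C : ℝ≥0∞) ^ q)) ^ (1 / q)).toNNReal *
      (B + 1) : ℝ≥0) * ENNReal.ofReal (N ^ δ) * L) ^ q := by
  have hq0 : 0 < q := by linarith
  have hR0 : 0 < R := by linarith
  have e1 : R * ((2 * R) ^ (-θ) * (c0 * (2 * R) ^ E)) = (c0 * 2 ^ (E - θ)) * R ^ (-κ) := by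
    rw [Real.mul_rpow (by norm_num) hR0.le, Real.mul_rpow (by norm_num) hR0.le, ← hE,
      show (1 - θ + E : ℝ) = 1 + (-θ) + E by ring, Real.rpow_add hR0, Real.rpow_add hR0,
      Real.rpow_one, show (E - θ : ℝ) = -θ + E by ring, Real.rpow_add (by norm_num : (0:ℝ) < 2)]
    ring
  have e2 : R * (R ^ (-θ) * R ^ E) = R ^ (-κ) := by
    rw [← hE, show (1 - θ + E : ℝ) = 1 + (-θ) + E by ring, Real.rpow_add hR0, Real.rpow_add hR0,
      Real.rpow_one]
    ring
  rw [e1, e2] at h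
  have hc1 : 0 < c0 * 2 ^ (E - θ) := mul_pos hc0 (Real.rpow_pos_of_pos (by norm_num) _)
  have hRk : 0 < R ^ (-κ) := Real.rpow_pos_of_pos hR0 _
  have hRk1 : R ^ (-κ) ≤ 1 := Real.rpow_le_one_of_one_le_of_nonpos hR (by linarith)
  have ha0 : ENNReal.ofReal (c0 * 2 ^ (E - θ) * R ^ (-κ)) ≠ 0 := by
    rw [ne_eq, ENNReal.ofReal_eq_zero, not_le]
    positivity
  rw [ENNReal.mul_le_iff_le_inv ha0 ENNReal.ofReal_ne_top] at h
  refine h.trans ?_
  have hD : (ENNReal.ofReal ((c0 * 2 ^ (E - θ))⁻¹) * (2 ^ n + (C : ℝ≥0∞) ^ q)) ^ (1 / q) ≠ ∞ := by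
    refine ENNReal.rpow_ne_top_of_nonneg (by positivity) ?_
    refine ENNReal.mul_ne_top ENNReal.ofReal_ne_top ?_
    refine ENNReal.add_ne_top.2 ⟨by norm_num, ENNReal.rpow_ne_top_of_nonneg hq0.le
      ENNReal.coe_ne_top⟩
  have hrhs : ∀ X Y Z : ℝ≥0∞, (X ^ (1 / q) * Y * ENNReal.ofReal (N ^ δ) * Z) ^ q =
      X * Y ^ q * ENNReal.ofReal (R ^ κ) * Z ^ q := by
    intro X Y Z
    rw [ENNReal.mul_rpow_of_nonneg _ _ hq0.le,
      ENNReal.mul_rpow_of_nonneg _ _ hq0.le, ENNReal.mul_rpow_of_nonneg _ _ hq0.le,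
      ← ENNReal.rpow_mul, one_div, inv_mul_cancel₀ hq0.ne', ENNReal.rpow_one,
      ENNReal.ofReal_rpow_of_pos (Real.rpow_pos_of_pos (by linarith) _),
      ← Real.rpow_mul (by linarith), hNR]
  rw [ENNReal.coe_mul, ENNReal.coe_toNNReal hD, hrhs]
  have e3 : (ENNReal.ofReal (c0 * 2 ^ (E - θ) * R ^ (-κ)))⁻¹ =
      ENNReal.ofReal ((c0 * 2 ^ (E - θ))⁻¹) * ENNReal.ofReal (R ^ κ) := by
    rw [← ENNReal.ofReal_inv_of_pos (by positivity), mul_inv, Real.rpow_neg hR0.le, inv_inv,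
      ENNReal.ofReal_mul (by positivity)]
  rw [e3]
  have h5 : 2 ^ n * (B * L) ^ q + ENNReal.ofReal (R ^ (-κ)) * (C * L) ^ q ≤
      (2 ^ n + (C : ℝ≥0∞) ^ q) * (((B + 1 : ℝ≥0) : ℝ≥0∞) ^ q * L ^ q) := by
    rw [add_mul]
    refine add_le_add ?_ ?_
    · rw [ENNReal.mul_rpow_of_nonneg _ _ hq0.le]
      gcongr
      exact_mod_cast le_self_add
    · rw [ENNReal.mul_rpow_of_nonneg _ _ hq0.le]
      calc ENNReal.ofReal (R ^ (-κ)) * ((C : ℝ≥0∞) ^ q * L ^ q)
          ≤ 1 * ((C : ℝ≥0∞) ^ q * L ^ q) := by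
            gcongr
            exact ENNReal.ofReal_le_one.2 hRk1
        _ = (C : ℝ≥0∞) ^ q * ((1 : ℝ≥0∞) ^ q * L ^ q) := by rw [ENNReal.one_rpow, one_mul, one_mul]
        _ ≤ _ := by
            gcongr
            exact_mod_cast le_add_self
  calc _ ≤ ENNReal.ofReal ((c0 * 2 ^ (E - θ))⁻¹) * ENNReal.ofReal (R ^ κ) *
        ((2 ^ n + (C : ℝ≥0∞) ^ q) * (((B + 1 : ℝ≥0) : ℝ≥0∞) ^ q * L ^ q)) := by gcongr
    _ = _ := by ring

theorem cv3 (h : Cv2Stm) : Cv3Stm := by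
  intro n q θ hn hq hθ hκ
  obtain ⟨c0, C, hc0, hC⟩ := h n q hn hq
  refine ⟨((ENNReal.ofReal ((c0 * 2 ^ ((n : ℝ) * (1 - q / 2) - θ))⁻¹) *
    (2 ^ n + (C : ℝ≥0∞) ^ q)) ^ (1 / q)).toNNReal, ?_⟩
  intro Λ B hB N S c hN hS hd
  have hq0 : 0 < q := by linarith
  rcases S.eq_empty_or_nonempty with rfl | ⟨k0, hk0⟩
  · simp [trig, ENNReal.zero_rpow_of_pos hq0]
  set R : ℝ := N ^ ((n : ℝ) + 4) with hR
  have hR1 : 1 ≤ R := Real.one_le_rpow hN (by positivity)
  have hR0 : 0 < R := by linarith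
  have hNR : N ^ (((n : ℝ) + 4) * (n * (q / 2 - 1) + θ - 1) / q * q) =
      R ^ ((n : ℝ) * (q / 2 - 1) + θ - 1) := by
    rw [hR, ← Real.rpow_mul (by linarith), div_mul_cancel₀ _ hq0.ne']
  refine alg (n := n) hq hc0 hR1 hκ hN (by ring) hNR ?_
  -- the estimate at a fixed time
  have hfix : ∀ t : ℝ, R ≤ t → ENNReal.ofReal (c0 * t ^ (n * (1 - q / 2))) *
      ∫⁻ v in CB n, ‖trig S c v‖ₑ ^ q ≤ (∫⁻ α in CB n, JJ q S c t α) +
        ENNReal.ofReal (t ^ (n * (1 - q / 2))) * (C * l2 S c) ^ q := by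
    intro t ht
    have h1 := hC N t (S.image fun k => k - k0) (fun k => c (k + k0)) hN ht (by
      intro k hk
      rw [Finset.mem_image] at hk
      obtain ⟨l, hl, rfl⟩ := hk
      exact hd l hl k0 hk0)
    rw [l2_shift] at h1
    have h2 : ∫⁻ v in CB n, ‖trig (S.image fun k => k - k0) (fun k => c (k + k0)) v‖ₑ ^ q =
        ∫⁻ v in CB n, ‖trig S c v‖ₑ ^ q := by
      refine lintegral_congr fun v => ?_
      rw [trig_shift, enorm_mul, ← ofReal_norm (ek (-k0) v), norm_ek, ENNReal.ofReal_one, one_mul]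
    rw [h2] at h1
    simp only [lint_shift] at h1
    exact h1
  -- the assumption for the translates
  have hass : ∫⁻ α in CB n, ∫⁻ t in Ici (1 : ℝ), ENNReal.ofReal (t ^ (-θ)) * JJ q S c t α ≤
      2 ^ n * (B * l2 S c) ^ q := by
    calc _ ≤ ∫⁻ α in CB n, (B * l2 S c) ^ q := by
          refine lintegral_mono fun α => ?_
          have := hB S (fun k => c k * ek k α) hS
          rw [l2_ek] at this
          exact this
      _ = _ := by
          rw [lintegral_const, Measure.restrict_apply_univ, volume_CB, mul_comm]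
  have hswap : ∫⁻ t in Icc R (2 * R), ENNReal.ofReal (t ^ (-θ)) * ∫⁻ α in CB n, JJ q S c t α ≤
      2 ^ n * (B * l2 S c) ^ q := by
    refine le_trans ?_ hass
    have hm : Measurable (fun p : ℝ × (Fin n → ℝ) =>
        ENNReal.ofReal (p.1 ^ (-θ)) * JJ q S c p.1 p.2) := by
      refine Measurable.mul ?_ (meas_JJ q S c)
      exact (measurable_fst.pow_const _).ennreal_ofReal
    calc _ ≤ ∫⁻ t in Ici (1 : ℝ), ENNReal.ofReal (t ^ (-θ)) * ∫⁻ α in CB n, JJ q S c t α := by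
          refine lintegral_mono_set ?_
          intro t ht
          exact hR1.trans ht.1
      _ = ∫⁻ t in Ici (1 : ℝ), ∫⁻ α in CB n, ENNReal.ofReal (t ^ (-θ)) * JJ q S c t α := by
          refine lintegral_congr fun t => ?_
          rw [lintegral_const_mul']
          exact ENNReal.ofReal_ne_top
      _ = _ := lintegral_lintegral_swap hm.aemeasurable
  have hvol : volume (Icc R (2 * R)) = ENNReal.ofReal R := by
    rw [Real.volume_Icc]; congr 1; ring
  have hE : (n : ℝ) * (1 - q / 2) ≤ 0 := by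
    have : (0 : ℝ) ≤ n := by positivity
    nlinarith
  have hmono : ∀ {x e : ℝ}, R ≤ x → x ≤ 2 * R → e ≤ 0 → (2 * R) ^ e ≤ x ^ e ∧ x ^ e ≤ R ^ e := by
    intro x e h1 h2 h3
    exact ⟨Real.rpow_le_rpow_of_nonpos (by linarith) h2 h3,
      Real.rpow_le_rpow_of_nonpos hR0 h1 h3⟩
  calc ENNReal.ofReal (R * ((2 * R) ^ (-θ) * (c0 * (2 * R) ^ ((n : ℝ) * (1 - q / 2))))) *
        ∫⁻ v in CB n, ‖trig S c v‖ₑ ^ q
      = ∫⁻ t in Icc R (2 * R), ENNReal.ofReal ((2 * R) ^ (-θ)) *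
          (ENNReal.ofReal (c0 * (2 * R) ^ ((n : ℝ) * (1 - q / 2))) *
            ∫⁻ v in CB n, ‖trig S c v‖ₑ ^ q) := by
        rw [lintegral_const, Measure.restrict_apply_univ, hvol,
          ENNReal.ofReal_mul hR0.le, ENNReal.ofReal_mul (by positivity)]
        ring
    _ ≤ ∫⁻ t in Icc R (2 * R), (ENNReal.ofReal (t ^ (-θ)) * (∫⁻ α in CB n, JJ q S c t α) +
          ENNReal.ofReal (R ^ (-θ) * R ^ ((n : ℝ) * (1 - q / 2))) * (C * l2 S c) ^ q) := by
        refine setLIntegral_mono' measurableSet_Icc ?_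
        intro t ht
        have h1 := hmono ht.1 ht.2 (e := -θ) (by linarith)
        have h2 := hmono ht.1 ht.2 hE
        calc _ ≤ ENNReal.ofReal (t ^ (-θ)) * (ENNReal.ofReal (c0 * t ^ ((n : ℝ) * (1 - q / 2))) *
            ∫⁻ v in CB n, ‖trig S c v‖ₑ ^ q) := by
              refine mul_le_mul' (ENNReal.ofReal_le_ofReal h1.1) (mul_le_mul' ?_ le_rfl)
              exact ENNReal.ofReal_le_ofReal (mul_le_mul_of_nonneg_left h2.1 hc0.le)
          _ ≤ ENNReal.ofReal (t ^ (-θ)) * ((∫⁻ α in CB n, JJ q S c t α) +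
              ENNReal.ofReal (t ^ (n * (1 - q / 2))) * (C * l2 S c) ^ q) := by
              gcongr
              exact hfix t ht.1
          _ = ENNReal.ofReal (t ^ (-θ)) * (∫⁻ α in CB n, JJ q S c t α) +
              (ENNReal.ofReal (t ^ (-θ)) * ENNReal.ofReal (t ^ (n * (1 - q / 2)))) *
                (C * l2 S c) ^ q := by ring
          _ ≤ _ := by
              have ht0 : 0 < t := by linarith [ht.1]
              rw [← ENNReal.ofReal_mul (by positivity)]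
              refine add_le_add le_rfl (mul_le_mul' (ENNReal.ofReal_le_ofReal ?_) le_rfl)
              exact mul_le_mul h1.2 h2.2 (by positivity) (by positivity)
    _ = (∫⁻ t in Icc R (2 * R), ENNReal.ofReal (t ^ (-θ)) * ∫⁻ α in CB n, JJ q S c t α) +
          ENNReal.ofReal (R * (R ^ (-θ) * R ^ ((n : ℝ) * (1 - q / 2)))) * (C * l2 S c) ^ q := by
        rw [lintegral_add_right _ measurable_const, lintegral_const, Measure.restrict_apply_univ,
          hvol, ENNReal.ofReal_mul (p := R) hR0.le]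
        ring
    _ ≤ _ := by gcongr

end Pool.Agent.W930.LS
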